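import Pool.Agent.Y17.N.Defs3
import Pool.Agent.Z270.Gen
import Pool.Agent.Y657.Z.Fix6
import Pool.Agent.Z447.SolA
import Pool.Agent.Z447.SolB
import Pool.Agent.Y259.Z7.Sol

/-!
# Z17N GEN3 and FIXT

The sum over all factorizations of the unweighted sums for norms `3 pr D1`, `3 pr D2`, and the parity
of the number of the remaining representations (adapted from `Pool.Agent.Z270.Gen`).
-/

set_option autoImplicit false

namespace Pool.Agent.Y614.Z17

open Finset Matrix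
open Pool.Agent.Z700 (fac pr sq7 od loc X2 KerT)
open Pool.Agent.Y17.N
open Pool.Agent.Z419.Gen (odd_sum fac2 fac7 od_eq split14 not_dvd_sq)

lemma spS {p : ℕ} (h : Sp p) : Pool.Agent.Z701.Sp p := h

lemma pr_pos {D : Finset ℕ} (hD : ∀ p ∈ D, Sp p) : 0 < pr D := by
  unfold pr
  exact Finset.prod_pos fun p hp => (hD p hp).1.pos

/-- squares up to fourteen -/
lemma sq14 {P : Finset ℕ} (hP : ∀ p ∈ P, Sp p) {D : ℕ} (hD : 0 < D) :
    (∃ y : ℕ, D = 14 * y ^ 2 ∧ ∀ p ∈ P, jacobiSym y p = 1) ↔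
      (Odd (D.factorization 2) ∧ Odd (D.factorization 7) ∧
        ∃ y : ℕ, od D = y ^ 2 ∧ ∀ p ∈ P, jacobiSym y p = 1) := by
  constructor
  · rintro ⟨y, hy, hj⟩
    have hy0 : y ≠ 0 := by rintro rfl; simp at hy; omega
    obtain ⟨i, j, z, h2, h7, rfl⟩ := split14 hy0
    have e : D = 2 ^ (2 * i + 1) * 7 ^ (2 * j + 1) * z ^ 2 := by rw [hy]; ring
    rw [e, fac2 (not_dvd_sq Nat.prime_two h2), fac7 (not_dvd_sq (by norm_num) h7),
      od_eq (not_dvd_sq Nat.prime_two h2) (not_dvd_sq (by norm_num) h7)]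
    refine ⟨⟨i, rfl⟩, ⟨j, rfl⟩, z, rfl, fun p hp => ?_⟩
    rw [← Pool.Agent.Z270.Gen.jac_eq (spS (hP p hp)) i j z]
    exact hj p hp
  · rintro ⟨⟨i, hi⟩, ⟨j, hj⟩, y, hy, hjac⟩
    obtain ⟨a, c, z, h2, h7, hDe⟩ := split14 hD.ne'
    rw [hDe, fac2 h2] at hi
    rw [hDe, fac7 h7] at hj
    rw [hDe, od_eq h2 h7] at hy
    refine ⟨2 ^ i * 7 ^ j * y, ?_, fun p hp => ?_⟩
    · rw [hDe, hi, hj, hy]
      ring
    · rw [Pool.Agent.Z270.Gen.jac_eq (spS (hP p hp))]
      exact hjac p hp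

lemma mem_FixT {P : Finset ℕ} {b : ℤ} : b ∈ FixT P ↔
    b ∈ Ioo (-(9 * (pr P : ℤ))) (9 * (pr P : ℤ)) ∧
    (b % 4 = 1 ∧ (b : ZMod 7) = -(2 * bq 3 P) ∧ ¬ (3 : ℤ) ∣ b ∧
    ∃ y ∈ range (9 * pr P), 9 * (pr P : ℤ) = b ^ 2 + 14 * (y : ℤ) ^ 2 ∧
      ∀ p ∈ P, jacobiSym y p = 1) := by
  unfold FixT
  simp only [Finset.mem_filter]

theorem t_GEN3 (h : S_GENb3) : S_GEN3 := by
  intro P hP hne
  classical
  set m : ℕ := pr P with hm
  have hmpos : 0 < pr P := pr_pos hP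
  let Db : ℤ → ℕ := fun b => (9 * (m : ℤ) - b ^ 2).toNat
  let I : Finset ℤ := (Ioo (-(9 * (m : ℤ))) (9 * (m : ℤ))).filter fun b : ℤ =>
    b % 4 = 1 ∧ (b : ZMod 7) = -(2 * bq 3 P) ∧ 0 < Db b
  have hSB : ∀ D1 ∈ P.powerset, SB (3 * pr D1) (3 * pr (P \ D1)) (-(2 * bq 3 P)) 1 =
      ∑ b ∈ I, loc (3 * pr D1) (Db b) := by
    intro D1 hD1
    rw [Finset.mem_powerset] at hD1
    have e1 : pr D1 * pr (P \ D1) = m := by
      rw [hm]
      unfold pr
      rw [mul_comm]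
      exact Finset.prod_sdiff hD1
    have e3 : (((3 * pr D1 : ℕ) : ℤ) * ((3 * pr (P \ D1) : ℕ) : ℤ)) = 9 * (m : ℤ) := by
      rw [← e1]
      push_cast
      ring
    unfold SB
    rw [e3]
    refine Finset.sum_congr ?_ fun b _ => rfl
    ext b
    simp only [I, Finset.mem_filter]
    have h4 : (4 : ℤ) ∣ b - 1 ↔ b % 4 = 1 := by omega
    have h5 : b ^ 2 < 9 * (m : ℤ) ↔ 0 < Db b := by
      show _ ↔ 0 < (9 * (m : ℤ) - b ^ 2).toNat
      omega
    rw [h4, h5]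
  rw [Finset.sum_congr rfl hSB, Finset.sum_comm]
  have key : ∀ b ∈ I, ∃ n : ℤ, ∑ D1 ∈ P.powerset, loc (3 * pr D1) (Db b) = 2 ^ P.card * n ∧
      (Odd n ↔ b ∈ FixT P) := by
    intro b hb
    obtain ⟨hb0, hb4, hb7, hbD⟩ := Finset.mem_filter.1 hb
    have hDz : ((Db b : ℕ) : ℤ) = 9 * (pr P : ℤ) - b ^ 2 := by
      have h1 : 0 < (9 * (m : ℤ) - b ^ 2) := by
        have : 0 < (9 * (m : ℤ) - b ^ 2).toNat := hbD
        omega
      show (((9 * (m : ℤ) - b ^ 2).toNat : ℕ) : ℤ) = _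
      rw [Int.toNat_of_nonneg h1.le]
    have hfix : b ∈ FixT P ↔
        (¬ (3 : ℤ) ∣ b ∧ ∃ y : ℕ, Db b = 14 * y ^ 2 ∧ ∀ p ∈ P, jacobiSym y p = 1) := by
      rw [mem_FixT]
      constructor
      · rintro ⟨_, _, _, h3, y, _, hy, hj⟩
        refine ⟨h3, y, ?_, hj⟩
        have : ((Db b : ℕ) : ℤ) = ((14 * y ^ 2 : ℕ) : ℤ) := by
          rw [hDz, hy]
          push_cast
          ring
        exact_mod_cast this
      · rintro ⟨h3, y, hy, hj⟩
        refine ⟨hb0, hb4, hb7, h3, y, ?_, ?_, hj⟩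
        · rw [Finset.mem_range]
          have h1 : ((14 * y ^ 2 : ℕ) : ℤ) = 9 * (pr P : ℤ) - b ^ 2 := by rw [← hy, hDz]
          have h2 : 14 * y ^ 2 ≤ 9 * pr P := by
            have : ((14 * y ^ 2 : ℕ) : ℤ) ≤ ((9 * pr P : ℕ) : ℤ) := by
              rw [h1]
              push_cast
              nlinarith
            exact_mod_cast this
          nlinarith
        · have h1 : ((14 * y ^ 2 : ℕ) : ℤ) = 9 * (pr P : ℤ) - b ^ 2 := by rw [← hy, hDz]
          push_cast at h1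
          linarith
    rw [hfix, sq14 hP hbD]
    by_cases h2 : Odd ((Db b).factorization 2)
    · obtain ⟨n, hn, hodd⟩ := h P hP hne b (by rw [Int.odd_iff]; omega) (Db b) hbD hDz h2
      refine ⟨((Db b).factorization 7 : ℤ) * n, ?_, ?_⟩
      · have e1 : ∀ D1 ∈ P.powerset, loc (3 * pr D1) (Db b) =
            ((Db b).factorization 7 : ℤ) *
              ∏ l ∈ ((Db b).primeFactors.erase 2).erase 7, fac (3 * pr D1) (Db b) l := by
          intro D1 _
          unfold loc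
          rw [if_pos h2]
        rw [Finset.sum_congr rfl e1, ← Finset.mul_sum, hn]
        ring
      · rw [Int.odd_mul]
        have e2 : Odd (((Db b).factorization 7 : ℕ) : ℤ) ↔ Odd ((Db b).factorization 7) :=
          Int.odd_coe_nat _
        rw [e2]
        constructor
        · rintro ⟨h7, hn1⟩
          obtain ⟨k1, k2⟩ := (hodd h7).1 hn1
          exact ⟨k1, h2, h7, k2⟩
        · rintro ⟨k1, -, h7, k2⟩
          exact ⟨h7, (hodd h7).2 ⟨k1, k2⟩⟩
    · refine ⟨0, ?_, ?_⟩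
      · have e1 : ∀ D1 ∈ P.powerset, loc (3 * pr D1) (Db b) = 0 := by
          intro D1 _
          unfold loc
          rw [if_neg h2]
        rw [Finset.sum_congr rfl e1]
        simp
      · constructor
        · intro h0
          simp at h0
        · rintro ⟨_, h3, _⟩
          exact absurd h3 h2
  choose! nb hnb1 hnb2 using key
  refine ⟨∑ b ∈ I, nb b, ?_, ?_⟩
  · rw [Finset.sum_congr rfl hnb1, Finset.mul_sum]
  · rw [odd_sum I nb (fun b => b ∈ FixT P) hnb2]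
    have e1 : I.filter (fun b => b ∈ FixT P) = FixT P := by
      ext b
      rw [Finset.mem_filter]
      constructor
      · exact fun h => h.2
      · intro hb
        refine ⟨?_, hb⟩
        obtain ⟨hb0, hb4, hb7, h3, y, _, hy, _⟩ := mem_FixT.1 hb
        refine Finset.mem_filter.2 ⟨hb0, hb4, hb7, ?_⟩
        show 0 < (9 * (m : ℤ) - b ^ 2).toNat
        rw [hm, hy]
        have hy0 : (y : ℤ) ≠ 0 := by
          intro h0
          rw [h0] at hy
          -- `b² = 9 m` would make `b` divisible by three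
          apply h3
          have h4 : (3 : ℤ) ∣ b ^ 2 := ⟨3 * (pr P : ℤ), by linarith⟩
          exact Int.prime_three.dvd_of_dvd_pow h4
        have : 0 < 14 * (y : ℤ) ^ 2 := by positivity
        omega
    rw [e1]

/-! ### the number of the remaining representations -/

lemma inr_empty {P : Finset ℕ} (hP : ∀ p ∈ P, Sp p) : Pool.Agent.Z701.inr P = ∅ := by
  unfold Pool.Agent.Z701.inr
  refine Finset.filter_eq_empty_iff.2 fun p hp h5 => ?_
  have := (hP p hp).2.1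
  omega

lemma spl_self {P : Finset ℕ} (hP : ∀ p ∈ P, Sp p) : Pool.Agent.Z701.spl P = P := by
  unfold Pool.Agent.Z701.spl
  exact Finset.filter_true_of_mem fun p hp => (hP p hp).2.1

lemma sq7_eq {p : ℕ} (hp : Sp p) : Pool.Agent.Z701.sq7 p = sq7 p := by
  unfold Pool.Agent.Z701.sq7 Pool.Agent.Z700.sq7
  rcases hp.2.2 with h | h | h
  · rw [if_pos (Or.inl h), if_pos h]
  · rw [if_neg (by omega), if_pos (Or.inl h), if_neg (by omega), if_pos h]
  · rw [if_neg (by omega), if_neg (by omega), if_neg (by omega), if_neg (by omega)]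

lemma be_eq {P : Finset ℕ} (hP : ∀ p ∈ P, Sp p) : Pool.Agent.Z701.be P = bq 3 P := by
  unfold Pool.Agent.Z701.be bq cq
  rw [inr_empty hP, Finset.card_empty, if_pos (by norm_num),
    Finset.prod_congr rfl fun p hp => sq7_eq (hP p hp)]
  simp

lemma fixT_eq {P : Finset ℕ} (hP : ∀ p ∈ P, Sp p) : FixT P = Pool.Agent.Z701.FixS P := by
  ext b
  rw [mem_FixT, Pool.Agent.Z270.Gen.mem_FixS, be_eq hP]
  unfold Pool.Agent.Z270.Gen.Cy
  rw [spl_self hP, inr_empty hP]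
  simp

theorem t_FIXT : S_FIXT := by
  intro P hP hne
  have h0 : Pool.Agent.Z701.S_FIX0 := Pool.Agent.Y657.Z.t_FIX0 Pool.Agent.Z447.t_SOLA0
    Pool.Agent.Z447.t_SOLB1 Pool.Agent.Y259.Z7.t_SOLC Pool.Agent.Y259.Z7.t_SOLP
  rw [fixT_eq hP]
  exact h0 P (fun p hp => spS (hP p hp)) hne

end Pool.Agent.Y614.Z17
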